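import Mathlib
import Pool.Agent.MazurT.Final
import Pool.Agent.MazurC.Unirat

/-!
Local ideals of sets of rational points, and their behaviour under rational retractions.
-/

namespace Pool.Agent.MazurQ

open MvPolynomial Topology Pool.Agent.MazurC Pool.Agent.MazurT

section LI

variable {n : ℕ} {K : Type} [Field K] {L : Type} [NontriviallyNormedField L] {σ : K →+* L}

/-- The polynomials vanishing on the lines through the points of `A` near `x`. -/
def LI (σ : K →+* L) (A : Set (Fin n → K)) (x : Fin n → L) : Set (MvPolynomial (Fin n) K) :=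
  {f | ∃ U ∈ 𝓝 x, ∀ y ∈ A, y ≠ 0 → Near σ U y → ∀ t : K, eval (t • y) f = 0}

theorem localIdeal_eq_LI (S : Set (MvPolynomial (Fin (n + 1)) K)) (x : Fin (n + 1) → L) :
    localIdeal σ S x = LI σ {y | ∀ g ∈ S, eval y g = 0} x := by
  ext f
  constructor
  · rintro ⟨U, hU, h⟩
    exact ⟨U, hU, fun y hy hy0 hn t => h y hy0 hy hn t⟩
  · rintro ⟨U, hU, h⟩
    exact ⟨U, hU, fun y hy0 hy hn t => h y hy hy0 hn t⟩

theorem LI_union (A B : Set (Fin n → K)) (x : Fin n → L) :
    LI σ (A ∪ B) x = LI σ A x ∩ LI σ B x := by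
  ext f
  constructor
  · rintro ⟨U, hU, h⟩
    exact ⟨⟨U, hU, fun y hy => h y (Or.inl hy)⟩, ⟨U, hU, fun y hy => h y (Or.inr hy)⟩⟩
  · rintro ⟨⟨U, hU, h⟩, ⟨V, hV, h'⟩⟩
    refine ⟨U ∩ V, Filter.inter_mem hU hV, ?_⟩
    rintro y (hy | hy) hy0 hn t
    · exact h y hy hy0 (hn.mono Set.inter_subset_left) t
    · exact h' y hy hy0 (hn.mono Set.inter_subset_right) t

theorem LI_empty (x : Fin n → L) : LI σ (∅ : Set (Fin n → K)) x = Set.univ := by
  ext f
  simp only [Set.mem_univ, iff_true]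
  exact ⟨Set.univ, Filter.univ_mem, fun y hy => absurd hy (Set.notMem_empty y)⟩

theorem LI_biUnion {ι : Type*} (T : Set ι) (hT : T.Finite) (A : ι → Set (Fin n → K))
    (x : Fin n → L) : LI σ (⋃ i ∈ T, A i) x = ⋂ i ∈ T, LI σ (A i) x := by
  induction T, hT using Set.Finite.induction_on with
  | empty => simp [LI_empty]
  | @insert a s _ _ ih => rw [Set.biUnion_insert, LI_union, ih, Set.biInter_insert]

/-- A set of points avoiding a neighbourhood. -/
theorem LI_of_not_near {A : Set (Fin n → K)} {x : Fin n → L} {U : Set (Fin n → L)}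
    (hU : U ∈ 𝓝 x) (h : ∀ y ∈ A, ¬ Near σ U y) : LI σ A x = Set.univ := by
  ext f
  simp only [Set.mem_univ, iff_true]
  exact ⟨U, hU, fun y hy _ hn => absurd hn (h y hy)⟩

end LI

section Retract

variable {n : ℕ} {K : Type} [Field K] {L : Type} [NontriviallyNormedField L] {σ : K →+* L}

/-- The map defined by polynomials. -/
noncomputable def pm (ρ : Fin n → MvPolynomial (Fin n) K) (v : Fin n → K) : Fin n → K := fun i => eval v (ρ i)

/-- The map defined by polynomials, over `L`. -/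
noncomputable def pmL (σ : K →+* L) (ρ : Fin n → MvPolynomial (Fin n) K) (v : Fin n → L) : Fin n → L :=
  fun i => eval₂ σ v (ρ i)

theorem continuous_pmL (ρ : Fin n → MvPolynomial (Fin n) K) : Continuous (pmL σ ρ) := by
  refine continuous_pi fun i => ?_
  exact cont_eval₂ (ρ i)

theorem pmL_sv (ρ : Fin n → MvPolynomial (Fin n) K) (v : Fin n → K) :
    pmL σ ρ (sv σ v) = sv σ (pm ρ v) := by
  funext i
  exact eval₂_comp_gen σ v (ρ i)

theorem pm_smul {ρ : Fin n → MvPolynomial (Fin n) K} {k : ℕ} (hρ : ∀ i, (ρ i).IsHomogeneous k)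
    (c : K) (v : Fin n → K) : pm ρ (c • v) = c ^ k • pm ρ v := by
  funext i
  exact eval_smul_hom (hρ i) c v

theorem eval₂_smul_hom {R S : Type*} [CommRing R] [CommRing S] {ι : Type*} {d : ℕ}
    {P : MvPolynomial ι R} (φ : R →+* S)
    (hP : P.IsHomogeneous d) (c : S) (y : ι → S) :
    eval₂ φ (c • y) P = c ^ d * eval₂ φ y P := by
  rw [← eval_map, ← eval_map]
  exact eval_smul_hom (hP.map φ) c y

theorem pmL_smul {ρ : Fin n → MvPolynomial (Fin n) K} {k : ℕ} (hρ : ∀ i, (ρ i).IsHomogeneous k)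
    (c : L) (v : Fin n → L) : pmL σ ρ (c • v) = c ^ k • pmL σ ρ v := by
  funext i
  exact eval₂_smul_hom σ (hρ i) c v

theorem eval_aeval_pm (ρ : Fin n → MvPolynomial (Fin n) K) (v : Fin n → K)
    (f : MvPolynomial (Fin n) K) : eval v (aeval ρ f) = eval (pm ρ v) f :=
  eval_aeval' ρ v f

/-- A polynomial vanishing at infinitely many points of a line through the origin. -/
theorem line_vanish [CharZero K] {f : MvPolynomial (Fin n) K} {v : Fin n → K} {c : K}
    (hc : c ≠ 0) {k : ℕ} (hk : k ≠ 0) (h : ∀ τ : K, eval ((τ ^ k * c) • v) f = 0) (t : K) :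
    eval (t • v) f = 0 := by
  obtain ⟨p, hp⟩ : ∃ p : Polynomial K, ∀ t : K, Polynomial.eval t p = eval (t • v) f := by
    refine ⟨eval₂ Polynomial.C (fun i => Polynomial.C (v i) * Polynomial.X) f, fun t => ?_⟩
    have h1 := hom_eval₂' (Polynomial.C : K →+* Polynomial K) (Polynomial.evalRingHom t)
      (fun i => Polynomial.C (v i) * Polynomial.X) f
    have e1 : (Polynomial.evalRingHom t).comp (Polynomial.C : K →+* Polynomial K)
        = RingHom.id K := by
      ext1 c; simp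
    rw [e1] at h1
    have e2 : (fun i => Polynomial.evalRingHom t
        (Polynomial.C (v i) * Polynomial.X)) = t • v := by
      funext i
      simp only [Polynomial.coe_evalRingHom, Polynomial.eval_mul,
        Polynomial.eval_C, Polynomial.eval_X, Pi.smul_apply, smul_eq_mul]
      ring
    rw [e2] at h1
    exact h1
  have hp0 : p = 0 := by
    refine Polynomial.eq_zero_of_infinite_isRoot p ?_
    have hinj : Function.Injective fun m : ℕ => ((m : K) ^ k * c) := by
      intro a b hab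
      have h1 : ((a : K)) ^ k = (b : K) ^ k := mul_right_cancel₀ hc hab
      have h2 : a ^ k = b ^ k := by exact_mod_cast h1
      exact Nat.pow_left_injective hk h2
    refine (Set.infinite_range_of_injective hinj).mono ?_
    rintro _ ⟨m, rfl⟩
    show Polynomial.eval _ p = 0
    rw [hp]
    exact h m
  rw [← hp, hp0, Polynomial.eval_zero]

/-- Local ideals and retractions: `ρ` maps the points of `B` near `y` to points of `A` and fixes
the points of `A` near `y` projectively. -/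
theorem LI_retract [CharZero K] {A B : Set (Fin n → K)} {y : Fin n → K}
    {ρ : Fin n → MvPolynomial (Fin n) K} {k : ℕ} (hk : k ≠ 0) (hρ : ∀ i, (ρ i).IsHomogeneous k)
    {W : Set (Fin n → L)} (hW : W ∈ 𝓝 (sv σ y))
    (hB : ∀ v ∈ B, v ≠ 0 → Near σ W v → pm ρ v ∈ A ∧ pm ρ v ≠ 0)
    (hA : ∀ v ∈ A, v ≠ 0 → Near σ W v → v ∈ B ∧ ∃ c : K, c ≠ 0 ∧ pm ρ v = c • v)
    {c0 : K} (hc0 : c0 ≠ 0) (hy : pm ρ y = c0 • y) :
    LI σ A (sv σ y) = {f | aeval ρ f ∈ LI σ B (sv σ y)} := by
  ext f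
  simp only [Set.mem_ofPred_eq]
  constructor
  · rintro ⟨U, hU, h⟩
    have hσc : σ c0 ≠ 0 := (map_ne_zero σ).2 hc0
    have hcont : Continuous fun w : Fin n → L => (σ c0)⁻¹ • pmL σ ρ w :=
      (continuous_const_smul (σ c0)⁻¹).comp (continuous_pmL ρ)
    have hU1 : (fun w : Fin n → L => (σ c0)⁻¹ • pmL σ ρ w) ⁻¹' U ∈ 𝓝 (sv σ y) := by
      apply hcont.continuousAt.preimage_mem_nhds
      rw [pmL_sv, hy, sv_smul, smul_smul, inv_mul_cancel₀ hσc, one_smul]
      exact hU
    refine ⟨_ ∩ W, Filter.inter_mem hU1 hW, ?_⟩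
    intro v hv hv0 hn t
    obtain ⟨h1, h2⟩ := hB v hv hv0 (hn.mono Set.inter_subset_right)
    obtain ⟨c, hc, hcU, _⟩ := hn
    have h3 : Near σ U (pm ρ v) := by
      refine ⟨(σ c0)⁻¹ * c ^ k, mul_ne_zero (inv_ne_zero hσc) (pow_ne_zero _ hc), ?_⟩
      have h4 : (σ c0)⁻¹ • pmL σ ρ (c • sv σ v) ∈ U := hcU
      rwa [pmL_smul hρ, pmL_sv, smul_smul] at h4
    rw [eval_aeval_pm, pm_smul hρ]
    exact h _ h1 h2 h3 _
  · rintro ⟨U, hU, h⟩
    refine ⟨U ∩ W, Filter.inter_mem hU hW, ?_⟩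
    intro v hv hv0 hn t
    obtain ⟨h1, c, hc, h2⟩ := hA v hv hv0 (hn.mono Set.inter_subset_right)
    have h3 := h v h1 hv0 (hn.mono Set.inter_subset_left)
    refine line_vanish hc hk (fun τ => ?_) t
    have h4 := h3 τ
    rwa [eval_aeval_pm, pm_smul hρ, h2, smul_smul] at h4

end Retract

end Pool.Agent.MazurQ
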