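import Mathlib
import Pool.Agent.MazurQ.Retract

/-!
Forms of degree at most three, possibly reducible or zero.
-/

namespace Pool.Agent.MazurQ

open MvPolynomial Topology Pool.Agent.MazurC Pool.Agent.MazurT

section Hom

variable {ι : Type*} {K : Type*} [Field K]

/-- Substitution `X i ↦ X i * T`. -/
noncomputable def hT (ι : Type*) (K : Type*) [Field K] :
    MvPolynomial ι K →ₐ[K] Polynomial (MvPolynomial ι K) :=
  aeval fun i => Polynomial.C (X i) * Polynomial.X

theorem hT_monomial (s : ι →₀ ℕ) (a : K) :
    hT ι K (monomial s a) = Polynomial.C (monomial s a) * Polynomial.X ^ s.degree := by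
  classical
  rw [hT, aeval_monomial]
  have h1 : (s.prod fun i k => (Polynomial.C (X i : MvPolynomial ι K) * Polynomial.X) ^ k)
      = Polynomial.C (s.prod fun i k => (X i : MvPolynomial ι K) ^ k) *
        Polynomial.X ^ s.degree := by
    rw [Finsupp.degree_apply, Finsupp.prod, Finsupp.prod]
    simp_rw [mul_pow]
    rw [Finset.prod_mul_distrib, Finset.prod_pow_eq_pow_sum, map_prod]
    simp_rw [map_pow]
  rw [h1, monomial_eq, map_mul, mul_assoc]
  rfl

theorem coeff_hT (f : MvPolynomial ι K) (j : ℕ) :
    (hT ι K f).coeff j = homogeneousComponent j f := by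
  classical
  induction f using MvPolynomial.induction_on' with
  | monomial s a =>
    have hm : (monomial s a : MvPolynomial ι K).IsHomogeneous s.degree :=
      isHomogeneous_monomial a rfl
    have h1 := homogeneousComponent_of_mem (m := j)
      ((mem_homogeneousSubmodule _ _).2 hm)
    rw [hT_monomial, Polynomial.coeff_C_mul_X_pow, h1]
  | add p q hp hq => rw [map_add, Polynomial.coeff_add, hp, hq, map_add]

theorem hT_hom {f : MvPolynomial ι K} {d : ℕ} (hf : f.IsHomogeneous d) :
    hT ι K f = Polynomial.C f * Polynomial.X ^ d := by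
  ext1 j
  rw [coeff_hT, Polynomial.coeff_C_mul_X_pow]
  exact homogeneousComponent_of_mem ((mem_homogeneousSubmodule _ _).2 hf)

theorem hT_injective : Function.Injective (hT ι K) := by
  intro f g h
  have h1 : ∀ j, homogeneousComponent j f = homogeneousComponent j g := fun j => by
    rw [← coeff_hT, ← coeff_hT, h]
  rw [← sum_homogeneousComponent f, ← sum_homogeneousComponent g]
  rw [Finset.sum_subset (Finset.range_mono (Nat.succ_le_succ (le_max_left f.totalDegree
    g.totalDegree))), Finset.sum_subset (s₁ := Finset.range (g.totalDegree + 1))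
    (Finset.range_mono (Nat.succ_le_succ (le_max_right f.totalDegree g.totalDegree)))]
  · exact Finset.sum_congr rfl fun j _ => h1 j
  · intro j _ hj
    exact homogeneousComponent_eq_zero _ _ (by simpa using hj)
  · intro j _ hj
    exact homogeneousComponent_eq_zero _ _ (by simpa using hj)

theorem hom_of_hT {f : MvPolynomial ι K}
    (h : (hT ι K f).natDegree ≤ (hT ι K f).natTrailingDegree) :
    f.IsHomogeneous (hT ι K f).natDegree := by
  have h1 : ∀ j, j ≠ (hT ι K f).natDegree → homogeneousComponent j f = 0 := by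
    intro j hj
    rw [← coeff_hT]
    rcases lt_or_gt_of_ne hj with h2 | h2
    · exact Polynomial.coeff_eq_zero_of_lt_natTrailingDegree (lt_of_lt_of_le h2 h)
    · exact Polynomial.coeff_eq_zero_of_natDegree_lt h2
  have h2 : f = homogeneousComponent (hT ι K f).natDegree f := by
    conv_lhs => rw [← sum_homogeneousComponent f]
    by_cases h3 : (hT ι K f).natDegree ∈ Finset.range (f.totalDegree + 1)
    · rw [Finset.sum_eq_single_of_mem _ h3]
      intro j _ hj
      exact h1 j hj
    · rw [Finset.sum_eq_zero]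
      · rw [homogeneousComponent_eq_zero _ _ (by simpa using h3)]
      · intro j hj
        exact h1 j fun h4 => h3 (h4 ▸ hj)
  rw [h2]
  have h3 := homogeneousComponent_isHomogeneous (hT ι K f).natDegree f
  rw [← h2]
  rw [← h2] at h3
  exact h3

/-- The factors of a form are forms. -/
theorem hom_of_mul {A B : MvPolynomial ι K} {d : ℕ} (h : (A * B).IsHomogeneous d)
    (h0 : A * B ≠ 0) : ∃ i j, A.IsHomogeneous i ∧ B.IsHomogeneous j ∧ i + j = d := by
  have hA0 : hT ι K A ≠ 0 := fun h1 =>
    left_ne_zero_of_mul h0 (hT_injective (h1.trans (map_zero _).symm))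
  have hB0 : hT ι K B ≠ 0 := fun h1 =>
    right_ne_zero_of_mul h0 (hT_injective (h1.trans (map_zero _).symm))
  have h1 : hT ι K A * hT ι K B = Polynomial.C (A * B) * Polynomial.X ^ d := by
    rw [← map_mul, hT_hom h]
  have hd := congrArg Polynomial.natDegree h1
  have ht := congrArg Polynomial.natTrailingDegree h1
  rw [Polynomial.natDegree_mul hA0 hB0, Polynomial.natDegree_C_mul_X_pow _ _ h0] at hd
  rw [Polynomial.natTrailingDegree_mul hA0 hB0, Polynomial.C_mul_X_pow_eq_monomial,
    Polynomial.natTrailingDegree_monomial h0] at ht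
  have hA1 := Polynomial.natTrailingDegree_le_natDegree (hT ι K A)
  have hB1 := Polynomial.natTrailingDegree_le_natDegree (hT ι K B)
  exact ⟨_, _, hom_of_hT (by omega), hom_of_hT (by omega), hd⟩

end Hom

section Finite

variable {K : Type} [Field K] [CharZero K] {L : Type} [NontriviallyNormedField L] {σ : K →+* L}

omit [CharZero K] in
theorem localIdeal_mul {n : ℕ} (A B : MvPolynomial (Fin (n + 1)) K) (x : Fin (n + 1) → L) :
    localIdeal σ {A * B} x = localIdeal σ {A} x ∩ localIdeal σ {B} x := by
  rw [localIdeal_eq_LI, localIdeal_eq_LI, localIdeal_eq_LI, ← LI_union]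
  congr 1
  ext y
  simp only [Set.mem_singleton_iff, forall_eq, map_mul, mul_eq_zero, Set.mem_union,
    Set.mem_ofPred_eq]

/-- The local ideals at rational points of a hypersurface of degree at most three (possibly
reducible, possibly everything) are finitely many. -/
theorem finite_cubic (hσ : DenseRange σ) [ProperSpace L] {n : ℕ} : ∀ (d : ℕ) (_ : d ≤ 3)
    (P : MvPolynomial (Fin (n + 1)) K) (_ : P.IsHomogeneous d),
    {J | ∃ y : Fin (n + 1) → K, y ≠ 0 ∧ J = localIdeal σ {P} (sv σ y)}.Finite := by
  intro d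
  induction d using Nat.strong_induction_on with
  | _ d ih =>
  intro hd P hP
  by_cases h0 : P = 0
  · refine (Set.finite_singleton {f : MvPolynomial (Fin (n + 1)) K |
      ∀ x ∈ (⊤ : Submodule K (Fin (n + 1) → K)), eval x f = 0}).subset ?_
    rintro J ⟨y, hy0, rfl⟩
    refine localIdeal_subspace hσ ⊤ ?_ trivial hy0 Filter.univ_mem fun _ _ _ _ => trivial
    intro x _ g hg
    rw [Set.mem_singleton_iff.1 hg, h0, map_zero]
  by_cases hu : IsUnit P
  · refine (Set.finite_singleton Set.univ).subset ?_
    rintro J ⟨y, hy0, rfl⟩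
    rw [localIdeal_eq_LI]
    refine LI_of_not_near Filter.univ_mem ?_
    intro z hz _
    have h1 : eval z P = 0 := hz P rfl
    exact (hu.map (eval z)).ne_zero h1
  by_cases hirr : Irreducible P
  · obtain ⟨⟨V, hV, hVF, hx⟩, _⟩ := final_all (σ := σ) hσ hd hP hirr
    refine ((hV.powerset.image fun A : Set (Submodule K (Fin (n + 1) → K)) =>
      {f : MvPolynomial (Fin (n + 1)) K | ∀ W ∈ A, ∀ y ∈ W, eval y f = 0}).union
      (Set.finite_singleton {f | P ∣ f})).subset ?_
    rintro J ⟨y, hy0, rfl⟩
    rcases hx (sv σ y) with h1 | ⟨A, hA, h1⟩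
    · right; exact h1
    · left; exact ⟨A, hA, h1.symm⟩
  · obtain ⟨A, B, hA, hB, rfl⟩ : ∃ A B, ¬ IsUnit A ∧ ¬ IsUnit B ∧ P = A * B := by
      rw [irreducible_iff] at hirr
      push Not at hirr
      obtain ⟨A, B, h1, h2, h3⟩ := hirr hu
      exact ⟨A, B, h2, h3, h1⟩
    obtain ⟨i, j, hi, hj, hij⟩ := hom_of_mul hP h0
    have hA0 : A ≠ 0 := left_ne_zero_of_mul h0
    have hB0 : B ≠ 0 := right_ne_zero_of_mul h0
    have hi0 : i ≠ 0 := by
      rintro rfl
      have h1 := hi.totalDegree hA0
      exact hA ((isUnit_iff_deg hA0).2 h1)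
    have hj0 : j ≠ 0 := by
      rintro rfl
      have h1 := hj.totalDegree hB0
      exact hB ((isUnit_iff_deg hB0).2 h1)
    have h1 := ih i (by omega) (by omega) A hi
    have h2 := ih j (by omega) (by omega) B hj
    refine (h1.image2 (fun s t => s ∩ t) h2).subset ?_
    rintro J ⟨y, hy0, rfl⟩
    rw [localIdeal_mul]
    exact ⟨_, ⟨y, hy0, rfl⟩, _, ⟨y, hy0, rfl⟩, rfl⟩

end Finite

end Pool.Agent.MazurQ
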