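import Mathlib
import Pool.Agent.MazurQ.Cubic

/-!
Intersections of two quadrics.
-/

namespace Pool.Agent.MazurQ

open MvPolynomial Topology Pool.Agent.MazurC Pool.Agent.MazurT

section Two

variable {n : ℕ} {K : Type} [Field K] {L : Type} [NontriviallyNormedField L]
  {σ : K →+* L}

/-- The rational points of the intersection of two quadrics (as vectors). -/
def XK (q r : Fin n → Fin n → K) : Set (Fin n → K) := {y | Bq q y y = 0 ∧ Bq r y y = 0}

/-- The cone over the projection from `z`. -/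
noncomputable def Pz (q r : Fin n → Fin n → K) (z : Fin n → K) : MvPolynomial (Fin n) K :=
  ql r z * qf q - ql q z * qf r

/-- The inverse of the projection from `z`. -/
noncomputable def rz (q : Fin n → Fin n → K) (z : Fin n → K) (i : Fin n) :
    MvPolynomial (Fin n) K :=
  C 2 * ql q z * X i - C (z i) * qf q

theorem Pz_hom (q r : Fin n → Fin n → K) (z : Fin n → K) : (Pz q r z).IsHomogeneous 3 := by
  refine IsHomogeneous.sub ?_ ?_
  · exact (ql_hom z).mul qf_hom
  · exact (ql_hom z).mul qf_hom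

theorem rz_hom (q : Fin n → Fin n → K) (z : Fin n → K) (i : Fin n) :
    (rz q z i).IsHomogeneous 2 := by
  refine IsHomogeneous.sub ?_ ?_
  · have h1 := ((isHomogeneous_C (Fin n) (2 : K)).mul (ql_hom (q := q) z)).mul
      (isHomogeneous_X K i)
    simpa using h1
  · have h1 := (isHomogeneous_C (Fin n) (z i)).mul (qf_hom (q := q))
    simpa using h1

theorem eval_Pz (q r : Fin n → Fin n → K) (z v : Fin n → K) :
    eval v (Pz q r z) = Bq r z v * Bq q v v - Bq q z v * Bq r v v := by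
  rw [Pz, map_sub, map_mul, map_mul, eval_ql, eval_ql, eval_qf, eval_qf]

theorem pm_rz (q : Fin n → Fin n → K) (z v : Fin n → K) :
    pm (rz q z) v = (2 * Bq q z v) • v + (-Bq q v v) • z := by
  funext i
  simp only [pm, rz, map_sub, map_mul, eval_C, eval_X, eval_ql, eval_qf, Pi.add_apply,
    Pi.smul_apply, smul_eq_mul]
  ring

theorem rz_mem {q r : Fin n → Fin n → K} (hq : ∀ i j, q i j = q j i)
    (hr : ∀ i j, r i j = r j i) {z v : Fin n → K} (hz : z ∈ XK q r)
    (hv : eval v (Pz q r z) = 0) : pm (rz q z) v ∈ XK q r := by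
  rw [eval_Pz] at hv
  obtain ⟨h1, h2⟩ := hz
  rw [pm_rz]
  constructor
  · rw [Bq_comb hq, h1, Bq_comm hq v z]
    ring
  · rw [Bq_comb hr, h2, Bq_comm hr v z]
    linear_combination (-4 * Bq q z v) * hv

theorem rz_ne_zero {q r : Fin n → Fin n → K} [CharZero K] {z v : Fin n → K}
    (hz : z ∈ XK q r) (hv : Bq q z v ≠ 0) (hq : ∀ i j, q i j = q j i) :
    pm (rz q z) v ≠ 0 := by
  intro h
  have h1 : Bq q z (pm (rz q z) v) = 2 * Bq q z v ^ 2 := by
    rw [pm_rz, Bq_comm hq, Bq_add, Bq_smul, Bq_smul, Bq_comm hq v z, hz.1]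
    ring
  rw [h] at h1
  have h2 : Bq q z (0 : Fin n → K) = 0 := by
    simp [Bq]
  rw [h2] at h1
  have h3 : (2 : K) * Bq q z v ^ 2 ≠ 0 := mul_ne_zero two_ne_zero (pow_ne_zero _ hv)
  exact h3 h1.symm

/-- Projection from a rational point. -/
theorem LI_center [CharZero K] {q r : Fin n → Fin n → K} (hq : ∀ i j, q i j = q j i)
    (hr : ∀ i j, r i j = r j i) {z y : Fin n → K} (hz : z ∈ XK q r) (hy : y ∈ XK q r)
    (hzy : Bq q z y ≠ 0) :
    LI σ (XK q r) (sv σ y) =
      {f | aeval (rz q z) f ∈ LI σ {v | eval v (Pz q r z) = 0} (sv σ y)} := by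
  have hcont : Continuous fun w : Fin n → L => eval₂ σ w (ql q z) := cont_eval₂ _
  have hW : {w : Fin n → L | eval₂ σ w (ql q z) ≠ 0} ∈ 𝓝 (sv σ y) := by
    refine (isOpen_ne.preimage hcont).mem_nhds ?_
    show eval₂ σ (fun i => σ (y i)) (ql q z) ≠ 0
    rw [eval₂_comp_gen, eval_ql]
    exact (map_ne_zero σ).2 hzy
  have hnear : ∀ v : Fin n → K, Near σ {w : Fin n → L | eval₂ σ w (ql q z) ≠ 0} v →
      Bq q z v ≠ 0 := by
    rintro v ⟨c, _, hc⟩ h
    apply hc
    have h1 := eval₂_smul_hom σ (ql_hom (q := q) z) c (sv σ v)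
    rw [h1]
    have h2 : eval₂ σ (sv σ v) (ql q z) = σ (eval v (ql q z)) := eval₂_comp_gen σ v _
    rw [h2, eval_ql, h, map_zero, mul_zero]
  have hfix : ∀ v ∈ XK q r, pm (rz q z) v = (2 * Bq q z v) • v := by
    intro v hv
    rw [pm_rz, hv.1, neg_zero, zero_smul, add_zero]
  refine LI_retract two_ne_zero (rz_hom q z) hW ?_ ?_ (mul_ne_zero two_ne_zero hzy) (hfix y hy)
  · intro v hv _ hn
    exact ⟨rz_mem hq hr hz hv, rz_ne_zero hz (hnear v hn) hq⟩
  · intro v hv _ hn
    refine ⟨?_, _, mul_ne_zero two_ne_zero (hnear v hn), hfix v hv⟩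
    show eval v (Pz q r z) = 0
    rw [eval_Pz, hv.1, hv.2]
    ring

/-- Points orthogonal to all rational points. -/
theorem LI_vertex [CharZero K] (hσ : DenseRange σ) {q r : Fin n → Fin n → K}
    (hq : ∀ i j, q i j = q j i) (hr : ∀ i j, r i j = r j i) {y : Fin n → K} (hy0 : y ≠ 0)
    (hy : y ∈ XK q r) (h : ∀ z ∈ XK q r, Bq q z y = 0 ∧ Bq r z y = 0) :
    LI σ (XK q r) (sv σ y) = {f | ∀ z ∈ XK q r, eval z f = 0} := by
  have hcomb : ∀ z ∈ XK q r, ∀ a b : K, a • y + b • z ∈ XK q r := by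
    intro z hz a b
    constructor
    · rw [Bq_comb hq, hy.1, hz.1, Bq_comm hq y z, (h z hz).1]; ring
    · rw [Bq_comb hr, hy.2, hz.2, Bq_comm hr y z, (h z hz).2]; ring
  ext f
  simp only [Set.mem_ofPred_eq]
  constructor
  · rintro ⟨U, hU, hf⟩ z hz
    refine vanish_subspace hσ (Submodule.span K {y, z}) (Submodule.subset_span (by simp)) hy0 hU
      ?_ z (Submodule.subset_span (by simp))
    intro x hx hx0 hn s
    obtain ⟨a, b, rfl⟩ := Submodule.mem_span_pair.1 hx
    exact hf _ (hcomb z hz a b) hx0 hn s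
  · intro hf
    refine ⟨Set.univ, Filter.univ_mem, ?_⟩
    intro z hz _ _ t
    apply hf
    have h1 := hcomb z hz 0 t
    rwa [zero_smul, zero_add] at h1

end Two

section Main

variable {n : ℕ} {K : Type} [Field K] [CharZero K] {L : Type} [NontriviallyNormedField L]
  {σ : K →+* L}

omit [CharZero K] in
theorem XK_comm (q r : Fin n → Fin n → K) : XK q r = XK r q := by
  ext y; exact and_comm

omit [CharZero K] in
theorem XK_eq (q r : Fin n → Fin n → K) :
    {y | ∀ g ∈ ({qf q, qf r} : Set (MvPolynomial (Fin n) K)), eval y g = 0} = XK q r := by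
  ext y
  simp only [Set.mem_insert_iff, Set.mem_singleton_iff, forall_eq_or_imp, forall_eq, eval_qf,
    Set.mem_ofPred_eq, XK]

omit [CharZero K] in
/-- A finite set of rational points detecting orthogonality. -/
theorem exists_centers (q r : Fin n → Fin n → K) : ∃ Z : Finset (Fin n → K),
    (Z : Set (Fin n → K)) ⊆ XK q r ∧ ∀ y : Fin n → K, (∀ z ∈ Z, Bq q z y = 0 ∧ Bq r z y = 0) →
      ∀ z ∈ XK q r, Bq q z y = 0 ∧ Bq r z y = 0 := by
  obtain ⟨Z, hZ, hspan⟩ := (Submodule.fg_span_iff_fg_span_finset_subset (R := K) (XK q r)).1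
    (IsNoetherian.noetherian _)
  refine ⟨Z, hZ, ?_⟩
  intro y hy z hz
  let N : Submodule K (Fin n → K) :=
    { carrier := {x | Bq q x y = 0 ∧ Bq r x y = 0}
      add_mem' := fun {a b} ha hb => by
        constructor
        · rw [Bq_add, ha.1, hb.1, add_zero]
        · rw [Bq_add, ha.2, hb.2, add_zero]
      zero_mem' := by
        constructor <;> simp [Bq]
      smul_mem' := fun c a ha => by
        constructor
        · rw [Bq_smul, ha.1, mul_zero]
        · rw [Bq_smul, ha.2, mul_zero] }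
  have h1 : Submodule.span K (XK q r) ≤ N := by
    rw [hspan]
    exact Submodule.span_le.2 fun x hx => hy x hx
  exact h1 (Submodule.subset_span hz)

theorem finite_rat (hσ : DenseRange σ) [ProperSpace L] {q r : Fin (n + 1) → Fin (n + 1) → K}
    (hq : ∀ i j, q i j = q j i) (hr : ∀ i j, r i j = r j i) :
    {J | ∃ y : Fin (n + 1) → K, y ≠ 0 ∧ y ∈ XK q r ∧ J = LI σ (XK q r) (sv σ y)}.Finite := by
  obtain ⟨Z, hZ, hZy⟩ := exists_centers q r
  have hfin : ∀ (q r : Fin (n + 1) → Fin (n + 1) → K) (z : Fin (n + 1) → K),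
      {J | ∃ y : Fin (n + 1) → K, y ≠ 0 ∧
        J = {f : MvPolynomial (Fin (n + 1)) K |
          aeval (rz q z) f ∈ LI σ {v | eval v (Pz q r z) = 0} (sv σ y)}}.Finite := by
    intro q r z
    refine ((finite_cubic hσ 3 le_rfl (Pz q r z) (Pz_hom q r z)).image
      fun J => {f : MvPolynomial (Fin (n + 1)) K | aeval (rz q z) f ∈ J}).subset ?_
    rintro J ⟨y, hy0, rfl⟩
    refine ⟨_, ⟨y, hy0, rfl⟩, ?_⟩
    simp only [localIdeal_eq_LI, Set.mem_singleton_iff, forall_eq]
  refine (((Z.finite_toSet.biUnion fun z _ => hfin q r z).union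
    (Z.finite_toSet.biUnion fun z _ => hfin r q z)).union
    (Set.finite_singleton {f | ∀ z ∈ XK q r, eval z f = 0})).subset ?_
  rintro J ⟨y, hy0, hy, rfl⟩
  by_cases h : ∀ z ∈ Z, Bq q z y = 0 ∧ Bq r z y = 0
  · right
    exact LI_vertex hσ hq hr hy0 hy (hZy y h)
  · left
    push Not at h
    obtain ⟨z, hz, hzy⟩ := h
    by_cases h1 : Bq q z y = 0
    · right
      refine Set.mem_biUnion hz ⟨y, hy0, ?_⟩
      have hz' : z ∈ XK r q := by rw [XK_comm]; exact hZ hz
      have hy' : y ∈ XK r q := by rw [XK_comm]; exact hy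
      rw [XK_comm]
      exact LI_center hr hq hz' hy' (hzy h1)
    · left
      exact Set.mem_biUnion hz ⟨y, hy0, LI_center hq hr (hZ hz) hy h1⟩

theorem finite_two (hσ : DenseRange σ) [ProperSpace L] {F G : MvPolynomial (Fin (n + 1)) K}
    (hF : F.IsHomogeneous 2) (hG : G.IsHomogeneous 2) : FinitelyMany σ {F, G} := by
  obtain ⟨q, hq, rfl⟩ := exists_qf F hF
  obtain ⟨r, hr, rfl⟩ := exists_qf G hG
  apply finitelyMany_of_rat
  refine (finite_rat (σ := σ) hσ hq hr).subset ?_
  rintro J ⟨y, hy0, hy, rfl⟩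
  refine ⟨y, hy0, ?_, ?_⟩
  · rw [← XK_eq]; exact hy
  · rw [localIdeal_eq_LI, XK_eq]; rfl

end Main

end Pool.Agent.MazurQ
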