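import Mathlib
import Pool.Agent.MazurQ.Main

/-!
Intersections of two quadrics with a prime ideal and dense rational points.
-/

namespace Pool.Agent.MazurQ

open MvPolynomial Topology Pool.Agent.MazurC Pool.Agent.MazurT

section Forms

variable {n : ℕ} {K : Type} [Field K]

theorem hc_mul_hom (A : MvPolynomial (Fin n) K) {B : MvPolynomial (Fin n) K} {N : ℕ}
    (hB : B.IsHomogeneous N) (j : ℕ) :
    homogeneousComponent j (A * B) =
      if N ≤ j then homogeneousComponent (j - N) A * B else 0 := by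
  rw [← coeff_hT, map_mul, hT_hom hB, ← mul_assoc, Polynomial.coeff_mul_X_pow']
  by_cases h : N ≤ j
  · rw [if_pos h, if_pos h, Polynomial.coeff_mul_C, coeff_hT]
  · rw [if_neg h, if_neg h]

theorem hc_self {f : MvPolynomial (Fin n) K} {d : ℕ} (hf : f.IsHomogeneous d) :
    homogeneousComponent d f = f := by
  rw [homogeneousComponent_of_mem ((mem_homogeneousSubmodule _ _).2 hf), if_pos rfl]

/-- The ideal of the intersection. -/
noncomputable def IQ (q r : Fin n → Fin n → K) : Ideal (MvPolynomial (Fin n) K) :=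
  Ideal.span {qf q, qf r}

theorem mem_IQ {q r : Fin n → Fin n → K} {f : MvPolynomial (Fin n) K} :
    f ∈ IQ q r ↔ ∃ a b, a * qf q + b * qf r = f := Ideal.mem_span_pair

theorem IQ_vanish {q r : Fin n → Fin n → K} {f : MvPolynomial (Fin n) K} (hf : f ∈ IQ q r)
    {v : Fin n → K} (hv : v ∈ XK q r) : eval v f = 0 := by
  obtain ⟨a, b, rfl⟩ := mem_IQ.1 hf
  rw [map_add, map_mul, map_mul, eval_qf, eval_qf, hv.1, hv.2, mul_zero, mul_zero, add_zero]

theorem IQ_low {q r : Fin n → Fin n → K} {f : MvPolynomial (Fin n) K} (hf : f ∈ IQ q r)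
    {d : ℕ} (hd : d < 2) (hh : f.IsHomogeneous d) : f = 0 := by
  obtain ⟨a, b, rfl⟩ := mem_IQ.1 hf
  rw [← hc_self hh, map_add, hc_mul_hom a qf_hom, hc_mul_hom b qf_hom, if_neg (by omega),
    if_neg (by omega), add_zero]

theorem IQ_two {q r : Fin n → Fin n → K} {f : MvPolynomial (Fin n) K} (hf : f ∈ IQ q r)
    (hh : f.IsHomogeneous 2) : ∃ a b : K, f = C a * qf q + C b * qf r := by
  obtain ⟨a, b, rfl⟩ := mem_IQ.1 hf
  refine ⟨coeff 0 a, coeff 0 b, ?_⟩
  conv_lhs => rw [← hc_self hh, map_add, hc_mul_hom a qf_hom, hc_mul_hom b qf_hom,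
    if_pos le_rfl, if_pos le_rfl, Nat.sub_self, homogeneousComponent_zero,
    homogeneousComponent_zero]

theorem Pz_mem (q r : Fin n → Fin n → K) (z : Fin n → K) : Pz q r z ∈ IQ q r :=
  mem_IQ.2 ⟨ql r z, -ql q z, by rw [Pz]; ring⟩

theorem irreducible_linear {l : MvPolynomial (Fin n) K} (hl : l.IsHomogeneous 1) (h0 : l ≠ 0) :
    Irreducible l := by
  rw [irreducible_iff]
  constructor
  · intro h
    have h1 := (isUnit_iff_deg h0).1 h
    rw [hl.totalDegree h0] at h1
    exact one_ne_zero h1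
  · intro A B hAB
    rw [hAB] at hl h0
    obtain ⟨i, j, hi, hj, hij⟩ := hom_of_mul hl h0
    have hA0 : A ≠ 0 := left_ne_zero_of_mul h0
    have hB0 : B ≠ 0 := right_ne_zero_of_mul h0
    rcases Nat.eq_zero_or_pos i with h | h
    · left
      rw [isUnit_iff_deg hA0, hi.totalDegree hA0, h]
    · right
      rw [isUnit_iff_deg hB0, hj.totalDegree hB0]
      omega

theorem ql_eq_zero {q : Fin n → Fin n → K} {z : Fin n → K} (h : ql q z = 0) (x : Fin n → K) :
    Bq q z x = 0 := by
  rw [← eval_ql, h, map_zero]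

theorem eval_shift (z : Fin n → K) (f : MvPolynomial (Fin n) K) (u : Fin n → K) (t : K) :
    Polynomial.eval t ((shift z f).map (eval u)) = eval (u + t • z) f := by
  have h1 := eval₂_shift (RingHom.id K) u t z f
  rw [Polynomial.eval_map]
  have e1 : (fun i => u i + (RingHom.id K) (z i) * t) = u + t • z := by
    funext i
    simp only [RingHom.id_apply, Pi.add_apply, Pi.smul_apply, smul_eq_mul]
    ring
  rw [e1] at h1
  exact h1

end Forms

section Char

variable {n : ℕ} {K : Type} [Field K] [CharZero K]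

theorem Bq_polar {q : Fin n → Fin n → K} (hq : ∀ i j, q i j = q j i) (h : qf q = 0)
    (x y : Fin n → K) : Bq q x y = 0 := by
  have h1 : ∀ v : Fin n → K, Bq q v v = 0 := fun v => by rw [← eval_qf, h, map_zero]
  have h2 := Bq_comb hq 1 1 x y
  rw [h1, h1, h1] at h2
  have h3 : (2 : K) * Bq q x y = 0 := by linear_combination -h2
  exact (mul_eq_zero.1 h3).resolve_left two_ne_zero

omit [CharZero K] in
theorem Pz_shift {q r : Fin n → Fin n → K} (hq : ∀ i j, q i j = q j i)
    (hr : ∀ i j, r i j = r j i) {z : Fin n → K} (hz : z ∈ XK q r) (u : Fin n → K) (t : K) :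
    eval (u + t • z) (Pz q r z) = eval u (Pz q r z) := by
  have hq1 : Bq q z (u + t • z) = Bq q z u := by
    rw [Bq_comm hq, Bq_add, Bq_smul, hz.1, Bq_comm hq u z]; ring
  have hr1 : Bq r z (u + t • z) = Bq r z u := by
    rw [Bq_comm hr, Bq_add, Bq_smul, hz.2, Bq_comm hr u z]; ring
  have hq2 : Bq q (u + t • z) (u + t • z) = Bq q u u + 2 * t * Bq q z u := by
    have h1 := Bq_comb hq 1 t u z
    rw [one_smul] at h1
    rw [h1, hz.1, Bq_comm hq u z]; ring
  have hr2 : Bq r (u + t • z) (u + t • z) = Bq r u u + 2 * t * Bq r z u := by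
    have h1 := Bq_comb hr 1 t u z
    rw [one_smul] at h1
    rw [h1, hz.2, Bq_comm hr u z]; ring
  rw [eval_Pz, eval_Pz, hq1, hr1, hq2, hr2]
  ring

theorem Pz_ne_zero {q r : Fin n → Fin n → K} (hq : ∀ i j, q i j = q j i)
    (hp : (IQ q r).IsPrime) {z u w : Fin n → K}
    (hm : Bq q z u * Bq r z w - Bq q z w * Bq r z u ≠ 0) : Pz q r z ≠ 0 := by
  intro h
  have h1 : ql r z * qf q = ql q z * qf r := sub_eq_zero.1 h
  have hl0 : ql q z ≠ 0 := by
    intro h2
    apply hm
    rw [ql_eq_zero h2, ql_eq_zero h2]; ring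
  have hlr : ¬ ql q z ∣ ql r z := by
    rintro ⟨c, hc⟩
    by_cases hr0 : ql r z = 0
    · apply hm
      rw [ql_eq_zero hr0, ql_eq_zero hr0]; ring
    have h2 : (ql q z * c).IsHomogeneous 1 := by rw [← hc]; exact ql_hom z
    have h3 : ql q z * c ≠ 0 := by rw [← hc]; exact hr0
    have h4 := h2.totalDegree h3
    have hc0 : c ≠ 0 := right_ne_zero_of_mul h3
    rw [totalDegree_mul_of_isDomain hl0 hc0, (ql_hom z).totalDegree hl0] at h4
    have h5 : c.totalDegree = 0 := by omega
    rw [totalDegree_eq_zero_iff_eq_C] at h5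
    rw [h5] at hc
    apply hm
    have h6 : ∀ x : Fin n → K, Bq r z x = Bq q z x * coeff 0 c := by
      intro x
      rw [← eval_ql, hc, map_mul, eval_C, eval_ql]
    rw [h6, h6]; ring
  by_cases hF : qf q = 0
  · apply hm
    rw [Bq_polar hq hF, Bq_polar hq hF]; ring
  have hirr := irreducible_linear (ql_hom (q := q) z) hl0
  have h2 : ql q z ∣ ql r z * qf q := ⟨qf r, h1⟩
  obtain ⟨M, hM⟩ := (hirr.prime.dvd_or_dvd h2).resolve_left hlr
  have h3 : ql q z * M ∈ IQ q r := by
    rw [← hM]; exact mem_IQ.2 ⟨1, 0, by ring⟩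
  have h4 : (ql q z * M).IsHomogeneous 2 := by rw [← hM]; exact qf_hom
  have h5 : ql q z * M ≠ 0 := by rw [← hM]; exact hF
  rcases hp.mem_or_mem h3 with h6 | h6
  · exact hl0 (IQ_low h6 (by norm_num) (ql_hom z))
  · obtain ⟨i, j, hi, hj, hij⟩ := hom_of_mul h4 h5
    have hM0 : M ≠ 0 := right_ne_zero_of_mul h5
    have hi1 : i = 1 := by
      have h7 := hi.totalDegree hl0
      rw [(ql_hom z).totalDegree hl0] at h7
      exact h7.symm
    exact hM0 (IQ_low h6 (by omega) hj)

theorem Pz_factor {q r : Fin n → Fin n → K} (hq : ∀ i j, q i j = q j i)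
    (hr : ∀ i j, r i j = r j i) {z u w : Fin n → K} (hz : z ∈ XK q r)
    (hm : Bq q z u * Bq r z w - Bq q z w * Bq r z u ≠ 0)
    {A B : MvPolynomial (Fin n) K} (hAB : Pz q r z = A * B) (h0 : Pz q r z ≠ 0)
    (hB : ¬ IsUnit B) : A ∉ IQ q r := by
  intro hA
  have h1 : (A * B).IsHomogeneous 3 := by rw [← hAB]; exact Pz_hom q r z
  have h2 : A * B ≠ 0 := by rw [← hAB]; exact h0
  have hA0 : A ≠ 0 := left_ne_zero_of_mul h2
  have hB0 : B ≠ 0 := right_ne_zero_of_mul h2
  obtain ⟨i, j, hi, hj, hij⟩ := hom_of_mul h1 h2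
  have hj0 : j ≠ 0 := by
    rintro rfl
    exact hB ((isUnit_iff_deg hB0).2 (hj.totalDegree hB0))
  by_cases hi2 : i < 2
  · exact hA0 (IQ_low hA hi2 hi)
  have hi3 : i = 2 := by omega
  subst hi3
  obtain ⟨a, b, hab⟩ := IQ_two hA hi
  -- translation invariance
  have hPs : shift z (Pz q r z) = Polynomial.C (Pz q r z) := by
    ext1 k
    apply MvPolynomial.funext
    intro v
    have h3 : (shift z (Pz q r z)).map (eval v) = Polynomial.C (eval v (Pz q r z)) := by
      apply Polynomial.funext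
      intro t
      rw [eval_shift, Pz_shift hq hr hz, Polynomial.eval_C]
    have h4 := congrArg (fun p => Polynomial.coeff p k) h3
    simp only [Polynomial.coeff_map, Polynomial.coeff_C] at h4
    rw [Polynomial.coeff_C]
    by_cases hk : k = 0
    · rw [if_pos hk] at h4 ⊢
      exact h4
    · rw [if_neg hk] at h4 ⊢
      rw [h4, map_zero]
  have hdeg : (shift z A).natDegree = 0 := by
    have h3 : shift z A * shift z B = Polynomial.C (Pz q r z) := by
      rw [← map_mul, ← hAB, hPs]
    have h4 : shift z A * shift z B ≠ 0 := by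
      rw [h3]; exact Polynomial.C_ne_zero.2 h0
    have h5 := congrArg Polynomial.natDegree h3
    rw [Polynomial.natDegree_mul (left_ne_zero_of_mul h4) (right_ne_zero_of_mul h4),
      Polynomial.natDegree_C] at h5
    omega
  have hinv : ∀ (v : Fin n → K) (t : K), eval (v + t • z) A = eval v A := by
    intro v t
    have h3 := Polynomial.eq_C_of_natDegree_eq_zero hdeg
    have h4 := eval_shift z A v t
    have h5 := eval_shift z A v 0
    rw [h3, Polynomial.map_C, Polynomial.eval_C] at h4 h5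
    rw [zero_smul, add_zero] at h5
    rw [← h4, h5]
  have hlin : ∀ v : Fin n → K, a * Bq q z v + b * Bq r z v = 0 := by
    intro v
    have h3 := hinv v 1
    rw [hab, map_add, map_mul, map_mul, eval_C, eval_C, eval_qf, eval_qf, map_add, map_mul,
      map_mul, eval_C, eval_C, eval_qf, eval_qf] at h3
    have h4 := Bq_comb hq 1 1 v z
    have h5 := Bq_comb hr 1 1 v z
    rw [one_smul] at h4 h5
    rw [h4, h5, hz.1, hz.2, Bq_comm hq v z, Bq_comm hr v z] at h3
    have h6 : (2 : K) * (a * Bq q z v + b * Bq r z v) = 0 := by linear_combination h3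
    exact (mul_eq_zero.1 h6).resolve_left two_ne_zero
  have ha : a = 0 := by
    have h3 : a * (Bq q z u * Bq r z w - Bq q z w * Bq r z u) = 0 := by
      linear_combination Bq r z w * hlin u - Bq r z u * hlin w
    exact (mul_eq_zero.1 h3).resolve_right hm
  have hb : b = 0 := by
    have h3 : b * (Bq q z u * Bq r z w - Bq q z w * Bq r z u) = 0 := by
      linear_combination Bq q z u * hlin w - Bq q z w * hlin u
    exact (mul_eq_zero.1 h3).resolve_right hm
  apply hA0
  rw [hab, ha, hb]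
  simp

theorem Pz_irreducible {q r : Fin n → Fin n → K} (hq : ∀ i j, q i j = q j i)
    (hr : ∀ i j, r i j = r j i) (hp : (IQ q r).IsPrime) {z u w : Fin n → K} (hz : z ∈ XK q r)
    (hm : Bq q z u * Bq r z w - Bq q z w * Bq r z u ≠ 0) : Irreducible (Pz q r z) := by
  have h0 := Pz_ne_zero hq hp hm
  rw [irreducible_iff]
  constructor
  · intro h
    have h1 := (isUnit_iff_deg h0).1 h
    rw [(Pz_hom q r z).totalDegree h0] at h1
    exact absurd h1 (by norm_num)
  · intro A B hAB
    by_contra hcon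
    push Not at hcon
    have h1 : A * B ∈ IQ q r := by rw [← hAB]; exact Pz_mem q r z
    rcases hp.mem_or_mem h1 with h2 | h2
    · exact Pz_factor hq hr hz hm hAB h0 hcon.2 h2
    · exact Pz_factor hq hr hz hm (hAB.trans (mul_comm A B)) h0 hcon.1 h2

/-- Rational points are dense. -/
def DenseQ (q r : Fin n → Fin n → K) : Prop :=
  ∀ f : MvPolynomial (Fin n) K, (∀ v ∈ XK q r, v ≠ 0 → eval v f = 0) → f ∈ IQ q r

omit [CharZero K] in
theorem exists_good_center {q r : Fin n → Fin n → K} (hq : ∀ i j, q i j = q j i)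
    (hr : ∀ i j, r i j = r j i) (hp : (IQ q r).IsPrime) (hd : DenseQ q r) {y u w : Fin n → K}
    (hy : y ∈ XK q r) (hm : Bq q y u * Bq r y w - Bq q y w * Bq r y u ≠ 0) :
    ∃ z ∈ XK q r, Bq q z y ≠ 0 ∧ Bq q z u * Bq r z w - Bq q z w * Bq r z u ≠ 0 := by
  by_contra hcon
  push Not at hcon
  have h1 : ql q y * (ql q u * ql r w - ql q w * ql r u) ∈ IQ q r := by
    apply hd
    intro v hv _
    rw [map_mul, map_sub, map_mul, map_mul, eval_ql, eval_ql, eval_ql, eval_ql, eval_ql,
      Bq_comm hq y v, Bq_comm hq u v, Bq_comm hq w v, Bq_comm hr w v, Bq_comm hr u v]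
    by_cases h2 : Bq q v y = 0
    · rw [h2, zero_mul]
    · rw [hcon v hv h2, mul_zero]
  rcases hp.mem_or_mem h1 with h2 | h2
  · have h3 := IQ_low h2 (by norm_num) (ql_hom y)
    apply hm
    rw [ql_eq_zero h3, ql_eq_zero h3]; ring
  · have h3 := IQ_vanish h2 hy
    rw [map_sub, map_mul, map_mul, eval_ql, eval_ql, eval_ql, eval_ql, Bq_comm hq u y,
      Bq_comm hq w y, Bq_comm hr w y, Bq_comm hr u y] at h3
    exact hm h3

theorem aeval_rz_q {q r : Fin n → Fin n → K} (hq : ∀ i j, q i j = q j i) {z : Fin n → K}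
    (hz : z ∈ XK q r) : aeval (rz q z) (qf q) = 0 := by
  apply MvPolynomial.funext
  intro v
  rw [eval_aeval_pm, pm_rz, eval_qf, Bq_comb hq, hz.1, Bq_comm hq v z, map_zero]
  ring

theorem aeval_rz_r {q r : Fin n → Fin n → K} (hr : ∀ i j, r i j = r j i) {z : Fin n → K}
    (hz : z ∈ XK q r) : aeval (rz q z) (qf r) = Pz q r z * (C (-4) * ql q z) := by
  apply MvPolynomial.funext
  intro v
  rw [eval_aeval_pm, pm_rz, eval_qf, Bq_comb hr, hz.2, Bq_comm hr v z, map_mul, map_mul, eval_C,
    eval_ql, eval_Pz]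
  ring

theorem dvd_aeval_rz {q r : Fin n → Fin n → K} (hq : ∀ i j, q i j = q j i)
    (hr : ∀ i j, r i j = r j i) {z : Fin n → K} (hz : z ∈ XK q r)
    {g : MvPolynomial (Fin n) K} (hg : g ∈ IQ q r) : Pz q r z ∣ aeval (rz q z) g := by
  obtain ⟨a, b, rfl⟩ := mem_IQ.1 hg
  rw [map_add, map_mul, map_mul, aeval_rz_q hq hz, aeval_rz_r hr hz, mul_zero, zero_add]
  exact Dvd.intro_left _ (by ring : aeval (rz q z) b * (C (-4) * ql q z) * Pz q r z = _)

theorem dense_Pz_hom {q r : Fin n → Fin n → K} (hq : ∀ i j, q i j = q j i)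
    (hr : ∀ i j, r i j = r j i) (hd : DenseQ q r) {z : Fin n → K} (hz0 : z ≠ 0)
    (hz : z ∈ XK q r) (hl : ql q z ≠ 0) (hirr : Irreducible (Pz q r z))
    {f : MvPolynomial (Fin n) K} {e : ℕ} (hf : f.IsHomogeneous e)
    (h : ∀ v, v ≠ 0 → eval v (Pz q r z) = 0 → eval v f = 0) : Pz q r z ∣ f := by
  have hj : ∀ j, (shift z f).coeff j ∈ IQ q r := by
    intro j
    apply hd
    intro v hv _
    have hPv : eval v (Pz q r z) = 0 := IQ_vanish (Pz_mem q r z) hv
    have h1 : (shift z f).map (eval v) = 0 := by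
      refine Polynomial.eq_zero_of_infinite_isRoot _ ?_
      have h2 : {t : K | v + t • z = 0}.Finite := by
        refine Set.Subsingleton.finite ?_
        intro s hs t ht
        have h3 : v + s • z = v + t • z := by
          rw [show v + s • z = 0 from hs, show v + t • z = 0 from ht]
        have h4 : (s - t) • z = 0 := by
          rw [sub_smul, add_left_cancel h3, sub_self]
        exact sub_eq_zero.1 ((smul_eq_zero.1 h4).resolve_right hz0)
      refine h2.infinite_compl.mono ?_
      intro t ht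
      show Polynomial.eval t _ = 0
      rw [eval_shift]
      exact h _ ht (by rw [Pz_shift hq hr hz, hPv])
    have h2 := congrArg (fun p => Polynomial.coeff p j) h1
    simpa only [Polynomial.coeff_map, Polynomial.coeff_zero] using h2
  have h1 := eval₂_shift (C : K →+* MvPolynomial (Fin n) K) (rz q z) (qf q) z f
  have h2 : Pz q r z ∣ Polynomial.eval₂ (eval₂Hom (C : K →+* MvPolynomial (Fin n) K) (rz q z))
      (qf q) (shift z f) := by
    rw [Polynomial.eval₂_eq_sum_range]
    refine Finset.dvd_sum fun j _ => Dvd.dvd.mul_right ?_ _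
    exact dvd_aeval_rz hq hr hz (hj j)
  have h3 : eval₂ (C : K →+* MvPolynomial (Fin n) K) (fun i => rz q z i + C (z i) * qf q) f
      = (C 2 * ql q z) ^ e * f := by
    have e1 : (fun i => rz q z i + C (z i) * qf q)
        = fun i => (C 2 * ql q z) * (X i : MvPolynomial (Fin n) K) := by
      funext i
      rw [rz]; ring
    rw [e1, Pool.Agent.MazurT.eval₂_smul_hom _ hf, eval₂_eta]
  rw [h1, h3] at h2
  rcases hirr.prime.dvd_or_dvd h2 with h4 | h4
  · exfalso
    have h5 := hirr.prime.dvd_of_dvd_pow h4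
    have h6 : ((C 2 : MvPolynomial (Fin n) K) * ql q z).IsHomogeneous 1 := by
      have := (isHomogeneous_C (Fin n) (2 : K)).mul (ql_hom (q := q) z)
      simpa using this
    refine not_dvd_of_deg (Pz_hom q r z) hirr.ne_zero h6 ?_ (by norm_num) h5
    exact mul_ne_zero (by simp) hl
  · exact h4

end Char

end Pool.Agent.MazurQ
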