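import Mathlib
import Pool.Agent.MazurQ.Prime

/-!
Intersections of two quadrics: final statements.
-/

namespace Pool.Agent.MazurQ

open MvPolynomial Topology Pool.Agent.MazurC Pool.Agent.MazurT

section Dense

variable {n : ℕ} {K : Type} [Field K] [CharZero K]

theorem line_zero {f : MvPolynomial (Fin n) K} {v : Fin n → K}
    (h : ∀ t : K, t ≠ 0 → eval (t • v) f = 0) (t : K) : eval (t • v) f = 0 := by
  by_cases ht : t = 0
  · obtain ⟨p, hp⟩ : ∃ p : Polynomial K, ∀ t : K, Polynomial.eval t p = eval (t • v) f := by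
      refine ⟨(shift v f).map (eval 0), fun t => ?_⟩
      rw [eval_shift, zero_add]
    have hp0 : p = 0 := by
      refine Polynomial.eq_zero_of_infinite_isRoot p ?_
      refine (Set.finite_singleton (0 : K)).infinite_compl.mono ?_
      intro s hs
      show Polynomial.eval s p = 0
      rw [hp]
      exact h s hs
    rw [← hp, hp0, Polynomial.eval_zero]
  · exact h t ht

theorem dense_Pz {q r : Fin n → Fin n → K} (hq : ∀ i j, q i j = q j i)
    (hr : ∀ i j, r i j = r j i) (hd : DenseQ q r) {z : Fin n → K} (hz0 : z ≠ 0)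
    (hz : z ∈ XK q r) (hl : ql q z ≠ 0) (hirr : Irreducible (Pz q r z)) :
    DenseK (Pz q r z) := by
  intro f hf
  rw [← sum_homogeneousComponent f]
  refine Finset.dvd_sum fun e _ => ?_
  refine dense_Pz_hom hq hr hd hz0 hz hl hirr (homogeneousComponent_isHomogeneous e f) ?_
  intro v hv0 hv
  refine component_eval_eq_zero f v (line_zero fun t ht => ?_) e
  refine hf _ (smul_ne_zero ht hv0) ?_
  rw [eval_smul_hom (Pz_hom q r z), hv, mul_zero]

theorem smooth_Pz {q r : Fin n → Fin n → K} (hq : ∀ i j, q i j = q j i)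
    (hr : ∀ i j, r i j = r j i) {y z u w : Fin n → K} (hy : y ∈ XK q r)
    (hzy : Bq q z y ≠ 0) (hm : Bq q y u * Bq r y w - Bq q y w * Bq r y u ≠ 0) :
    ∃ l, eval y (pderiv l (Pz q r z)) ≠ 0 := by
  by_contra hcon
  push Not at hcon
  have h1 : ∀ l, Bq r z y * Bq q y (Pi.single l 1) - Bq q z y * Bq r y (Pi.single l 1) = 0 := by
    intro l
    have h2 := hcon l
    rw [Pz, map_sub, Derivation.leibniz, Derivation.leibniz] at h2
    simp only [smul_eq_mul, map_sub, map_add, map_mul, eval_ql, eval_qf, pderiv_qf hq,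
      pderiv_qf hr, hy.1, hy.2, zero_mul, add_zero] at h2
    have h3 : (2 : K) * (Bq r z y * Bq q y (Pi.single l 1)
        - Bq q z y * Bq r y (Pi.single l 1)) = 0 := by linear_combination h2
    exact (mul_eq_zero.1 h3).resolve_left two_ne_zero
  have h2 : ∀ x : Fin n → K, Bq r z y * Bq q y x - Bq q z y * Bq r y x = 0 := by
    intro x
    have h3 : ∀ (s : Fin n → Fin n → K) (x : Fin n → K),
        Bq s y x = ∑ l, x l * Bq s y (Pi.single l 1) := by
      intro s x
      have e1 : ∀ l, Bq s y (Pi.single l 1) = ∑ i, s i l * y i := by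
        intro l
        rw [Bq]
        refine Finset.sum_congr rfl fun i _ => ?_
        rw [Finset.sum_eq_single l]
        · simp
        · intro j _ hj; simp [hj]
        · simp
      simp only [e1, Finset.mul_sum]
      rw [Bq, Finset.sum_comm]
      refine Finset.sum_congr rfl fun i _ => Finset.sum_congr rfl fun j _ => ?_
      ring
    rw [h3 q x, h3 r x, Finset.mul_sum, Finset.mul_sum, ← Finset.sum_sub_distrib]
    refine Finset.sum_eq_zero fun l _ => ?_
    have := h1 l
    linear_combination x l * this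
  apply hm
  have h3 := h2 u
  have h4 := h2 w
  have h5 : Bq q z y * (Bq q y u * Bq r y w - Bq q y w * Bq r y u) = 0 := by
    linear_combination Bq q y w * h3 - Bq q y u * h4
  exact (mul_eq_zero.1 h5).resolve_left hzy

end Dense

section LI

variable {n : ℕ} {K : Type} [Field K] {L : Type} [NontriviallyNormedField L] {σ : K →+* L}

theorem LI_smul_le (A : Set (Fin n → K)) (x : Fin n → L) {c : L} (hc : c ≠ 0) :
    LI σ A (c • x) ⊆ LI σ A x := by
  rintro f ⟨U, hU, h⟩
  have hcont : Continuous fun w : Fin n → L => c • w := continuous_const_smul c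
  refine ⟨(fun w : Fin n → L => c • w) ⁻¹' U, hcont.continuousAt hU, ?_⟩
  rintro v hv hv0 ⟨d, hd, hdU⟩ t
  refine h v hv hv0 ⟨c * d, mul_ne_zero hc hd, ?_⟩ t
  rw [mul_smul]
  exact hdU

end LI

section Final

variable {n : ℕ} {K : Type} [Field K] [CharZero K] {L : Type} [NontriviallyNormedField L]
  {σ : K →+* L}

theorem LI_smooth (hσ : DenseRange σ) [ProperSpace L] {q r : Fin (n + 1) → Fin (n + 1) → K}
    (hq : ∀ i j, q i j = q j i) (hr : ∀ i j, r i j = r j i) (hp : (IQ q r).IsPrime)
    (hd : DenseQ q r) {y u w : Fin (n + 1) → K} (hy : y ∈ XK q r)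
    (hm : Bq q y u * Bq r y w - Bq q y w * Bq r y u ≠ 0) :
    LI σ (XK q r) (sv σ y) = {f | f ∈ IQ q r} := by
  obtain ⟨z, hz, hzy, hmz⟩ := exists_good_center hq hr hp hd hy hm
  have hy0 : y ≠ 0 := by
    rintro rfl
    apply hm
    have h1 : ∀ (s : Fin (n + 1) → Fin (n + 1) → K) (x : Fin (n + 1) → K), Bq s 0 x = 0 := by
      intro s x; simp [Bq]
    rw [h1, h1, h1, h1]; ring
  have hz0 : z ≠ 0 := by
    rintro rfl
    apply hzy
    simp [Bq]
  have hl : ql q z ≠ 0 := fun h => hzy (ql_eq_zero h y)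
  have hirr := Pz_irreducible hq hr hp hz hmz
  have hPy : eval y (Pz q r z) = 0 := IQ_vanish (Pz_mem q r z) hy
  have h1 := (final_all (σ := σ) hσ le_rfl (Pz_hom q r z) hirr).2
    (dense_Pz hq hr hd hz0 hz hl hirr) (sv σ y) (fun U hU =>
      ⟨y, hPy, smooth_Pz hq hr hy hzy hm, hy0, 1, one_ne_zero, by
        have h2 : (fun i => (1 : L) * σ (y i)) = sv σ y := by
          funext i; rw [one_mul]; rfl
        rw [h2]; exact mem_of_mem_nhds hU⟩)
  rw [localIdeal_eq_LI] at h1
  simp only [Set.mem_singleton_iff, forall_eq] at h1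
  rw [LI_center hq hr hz hy hzy, h1]
  ext f
  simp only [Set.mem_ofPred_eq]
  constructor
  · intro hf
    have h2 : ql q z * f ∈ IQ q r := by
      apply hd
      intro v hv hv0
      rw [map_mul, eval_ql]
      by_cases hzv : Bq q z v = 0
      · rw [hzv, zero_mul]
      · have h3 : ∀ τ : K, eval ((τ ^ 2 * (2 * Bq q z v)) • v) f = 0 := by
          intro τ
          obtain ⟨g, hg⟩ := hf
          have h4 := congrArg (eval (τ • v)) hg
          rw [map_mul, eval_smul_hom (Pz_hom q r z), IQ_vanish (Pz_mem q r z) hv, mul_zero,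
            zero_mul, eval_aeval_pm, pm_smul (rz_hom q z), pm_rz, hv.1, neg_zero, zero_smul,
            add_zero, smul_smul] at h4
          exact h4
        have h5 := line_vanish (mul_ne_zero two_ne_zero hzv) two_ne_zero h3 1
        rw [one_smul] at h5
        rw [h5, mul_zero]
    rcases hp.mem_or_mem h2 with h3 | h3
    · exact absurd (IQ_low h3 (by norm_num) (ql_hom z)) hl
    · exact h3
  · intro hf
    exact dvd_aeval_rz hq hr hz hf

theorem final_two (hσ : DenseRange σ) [ProperSpace L] {F G : MvPolynomial (Fin (n + 1)) K}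
    (hF : F.IsHomogeneous 2) (hG : G.IsHomogeneous 2) :
    FinitelyMany σ {F, G} ∧
    ((Ideal.span {F, G}).IsPrime →
      (∀ f : MvPolynomial (Fin (n + 1)) K, (∀ y : Fin (n + 1) → K, y ≠ 0 → eval y F = 0 →
        eval y G = 0 → eval y f = 0) → f ∈ Ideal.span {F, G}) →
      ∀ x : Fin (n + 1) → L,
        (∀ U ∈ 𝓝 x, ∃ y : Fin (n + 1) → K, eval y F = 0 ∧ eval y G = 0 ∧
          (∃ i j, eval y (pderiv i F) * eval y (pderiv j G) ≠
            eval y (pderiv j F) * eval y (pderiv i G)) ∧
          ∃ c : L, c ≠ 0 ∧ (fun i => c * σ (y i)) ∈ U) →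
        localIdeal σ {F, G} x = {f | f ∈ Ideal.span {F, G}}) := by
  refine ⟨finite_two hσ hF hG, ?_⟩
  obtain ⟨q, hq, rfl⟩ := exists_qf F hF
  obtain ⟨r, hr, rfl⟩ := exists_qf G hG
  intro hp hd x hx
  have hd' : DenseQ q r := by
    intro f hf
    refine hd f fun y hy0 h1 h2 => hf y ⟨?_, ?_⟩ hy0
    · rw [← eval_qf]; exact h1
    · rw [← eval_qf]; exact h2
  rw [localIdeal_eq_LI, XK_eq]
  ext f
  constructor
  · rintro ⟨U, hU, hf⟩
    obtain ⟨V, hVU, hVo, hxV⟩ := mem_nhds_iff.1 hU
    obtain ⟨y, h1, h2, ⟨i, j, hij⟩, c, hc, hcV⟩ := hx V (hVo.mem_nhds hxV)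
    rw [eval_qf] at h1 h2
    rw [pderiv_qf hq, pderiv_qf hq, pderiv_qf hr, pderiv_qf hr] at hij
    have hm : Bq q y (Pi.single i 1) * Bq r y (Pi.single j 1)
        - Bq q y (Pi.single j 1) * Bq r y (Pi.single i 1) ≠ 0 := by
      intro h3
      apply hij
      linear_combination 4 * h3
    have h3 := LI_smooth (σ := σ) hσ hq hr hp hd' ⟨h1, h2⟩ hm
    have h4 : f ∈ LI σ (XK q r) (c • sv σ y) := ⟨V, hVo.mem_nhds hcV,
      fun v hv hv0 hn t => hf v hv hv0 (hn.mono hVU) t⟩
    have h5 := LI_smul_le _ _ hc h4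
    rw [h3] at h5
    exact h5
  · intro hf
    refine ⟨Set.univ, Filter.univ_mem, ?_⟩
    intro v hv _ _ t
    refine IQ_vanish (q := q) (r := r) hf ?_
    constructor
    · have h6 := eval_smul_hom (qf_hom (q := q)) t v
      rw [eval_qf, eval_qf, hv.1, mul_zero] at h6
      exact h6
    · have h6 := eval_smul_hom (qf_hom (q := r)) t v
      rw [eval_qf, eval_qf, hv.2, mul_zero] at h6
      exact h6

end Final

end Pool.Agent.MazurQ
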