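import Mathlib
import Pool.Agent.MazurQ.Final

/-!
Linear sections of intersections of two quadrics.
-/

namespace Pool.Agent.MazurQ

open MvPolynomial Topology Pool.Agent.MazurC Pool.Agent.MazurT

section Lin

variable {n : ℕ} {K : Type} [Field K] [CharZero K] {L : Type} [NontriviallyNormedField L]
  {σ : K →+* L}

/-- The polynomials of a linear map. -/
noncomputable def lm (π : (Fin n → K) →ₗ[K] (Fin n → K)) (i : Fin n) : MvPolynomial (Fin n) K :=
  ∑ j, C (π (Pi.single j 1) i) * X j

omit [CharZero K] in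
theorem lm_hom (π : (Fin n → K) →ₗ[K] (Fin n → K)) (i : Fin n) : (lm π i).IsHomogeneous 1 :=
  IsHomogeneous.sum _ _ _ fun _ _ => isHomogeneous_C_mul_X _ _

omit [CharZero K] in
theorem pm_lm (π : (Fin n → K) →ₗ[K] (Fin n → K)) (v : Fin n → K) : pm (lm π) v = π v := by
  classical
  have h1 : π v = ∑ j, v j • π (Pi.single j 1) := by
    conv_lhs => rw [← Finset.univ_sum_single v]
    rw [map_sum]
    refine Finset.sum_congr rfl fun j _ => ?_
    have : (Pi.single j (v j) : Fin n → K) = v j • Pi.single j 1 := by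
      rw [← Pi.single_smul, smul_eq_mul, mul_one]
    rw [this, map_smul]
  funext i
  rw [h1, Finset.sum_apply, pm, lm, map_sum]
  refine Finset.sum_congr rfl fun j _ => ?_
  rw [map_mul, eval_C, eval_X, Pi.smul_apply, smul_eq_mul, mul_comm]

omit [CharZero K] in
theorem aeval_hom {ρ : Fin n → MvPolynomial (Fin n) K} (hρ : ∀ i, (ρ i).IsHomogeneous 1)
    {F : MvPolynomial (Fin n) K} {d : ℕ} (hF : F.IsHomogeneous d) :
    (aeval ρ F).IsHomogeneous d := by
  have h := hF.aeval ρ hρ
  rwa [one_mul] at h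

theorem finite_lin (hσ : DenseRange σ) [ProperSpace L] {S Λ : Set (MvPolynomial (Fin (n + 1)) K)}
    (hΛ : ∀ l ∈ Λ, l.IsHomogeneous 1) {F G : MvPolynomial (Fin (n + 1)) K}
    (hF : F.IsHomogeneous 2) (hG : G.IsHomogeneous 2) (hS : S = Λ ∪ {F, G}) :
    FinitelyMany σ S := by
  classical
  subst hS
  let N : Submodule K (Fin (n + 1) → K) :=
    { carrier := {x | ∀ l ∈ Λ, eval x l = 0}
      add_mem' := fun {a b} ha hb l hl => by
        rw [linear_add (hΛ l hl), ha l hl, hb l hl, add_zero]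
      zero_mem' := fun l hl => by
        have h1 := eval_smul_hom (hΛ l hl) (0 : K) (0 : Fin (n + 1) → K)
        rw [zero_smul, pow_one, zero_mul] at h1
        exact h1
      smul_mem' := fun c a ha l hl => by
        show eval (c • a) l = 0
        rw [eval_smul_hom (hΛ l hl), ha l hl, mul_zero] }
  obtain ⟨N', hN'⟩ := N.exists_isCompl
  let π : (Fin (n + 1) → K) →ₗ[K] (Fin (n + 1) → K) := N.subtype ∘ₗ Submodule.projectionOnto N N' hN'
  have hπN : ∀ v, π v ∈ N := fun v => (Submodule.projectionOnto N N' hN' v).2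
  have hπ : ∀ v ∈ N, π v = v := fun v hv => by
    show ((Submodule.projectionOnto N N' hN' v : N) : Fin (n + 1) → K) = v
    exact congrArg Subtype.val (Submodule.projectionOnto_apply_left hN' ⟨v, hv⟩)
  have hfin := rat_of_finitelyMany (finite_two (σ := σ) hσ (aeval_hom (lm_hom π) hF)
    (aeval_hom (lm_hom π) hG))
  apply finitelyMany_of_rat
  refine (hfin.image fun J => {f : MvPolynomial (Fin (n + 1)) K | aeval (lm π) f ∈ J}).subset ?_
  rintro J ⟨y, hy0, hy, rfl⟩
  have hyN : y ∈ N := fun l hl => hy l (Or.inl hl)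
  have hyF : eval y F = 0 := hy F (Or.inr (Or.inl rfl))
  have hyG : eval y G = 0 := hy G (Or.inr (Or.inr rfl))
  refine ⟨_, ⟨y, hy0, ?_, rfl⟩, ?_⟩
  · rintro g (rfl | rfl)
    · rw [eval_aeval_pm, pm_lm, hπ y hyN, hyF]
    · rw [eval_aeval_pm, pm_lm, hπ y hyN, hyG]
  · rw [localIdeal_eq_LI, localIdeal_eq_LI]
    have hcont : Continuous (pmL σ (lm π)) := continuous_pmL _
    have hW : {w : Fin (n + 1) → L | pmL σ (lm π) w ≠ 0} ∈ 𝓝 (sv σ y) := by
      refine (isOpen_ne.preimage hcont).mem_nhds ?_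
      show pmL σ (lm π) (sv σ y) ≠ 0
      rw [pmL_sv, pm_lm, hπ y hyN]
      intro h
      exact hy0 ((sv_eq_zero σ).1 h)
    symm
    refine LI_retract one_ne_zero (lm_hom π) hW ?_ ?_ one_ne_zero ?_
    · intro v hv _ hn
      rw [pm_lm]
      constructor
      · rintro g (hg | rfl | rfl)
        · exact hπN v g hg
        · have h1 := hv _ (Or.inl rfl)
          rwa [eval_aeval_pm, pm_lm] at h1
        · have h1 := hv _ (Or.inr rfl)
          rwa [eval_aeval_pm, pm_lm] at h1
      · rintro h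
        obtain ⟨c, hc, hcW⟩ := hn
        apply hcW
        rw [pmL_smul (lm_hom π), pmL_sv, pm_lm, h]
        have h2 : sv σ (0 : Fin (n + 1) → K) = (0 : Fin (n + 1) → L) := (sv_eq_zero σ).2 rfl
        rw [h2, smul_zero]
    · intro v hv _ _
      have hvN : v ∈ N := fun l hl => hv l (Or.inl hl)
      refine ⟨?_, 1, one_ne_zero, ?_⟩
      · rintro g (rfl | rfl)
        · rw [eval_aeval_pm, pm_lm, hπ v hvN]
          exact hv F (Or.inr (Or.inl rfl))
        · rw [eval_aeval_pm, pm_lm, hπ v hvN]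
          exact hv G (Or.inr (Or.inr rfl))
      · rw [pm_lm, hπ v hvN, one_smul]
    · rw [pm_lm, hπ y hyN, one_smul]

end Lin

end Pool.Agent.MazurQ
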